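import Pool.Agent.H26.Isi

set_option autoImplicit false

namespace Pool.Agent.Results.MP_5c431f_gt.PerfectImage

open Pool.Agent.H26.Isi

universe u

/-- There are locally compact Hausdorff spaces `X, D, Y`, with `D` developable, and perfect maps
`g : X → D`, `f : X → Y`, such that no developable space `E` (in any universe, no separation axiom
required) admits a perfect map `Y → E`. -/
theorem result : ∃ (X D Y : Type) (_ : TopologicalSpace X) (_ : TopologicalSpace D)
    (_ : TopologicalSpace Y) (g : X → D) (f : X → Y),
    T2Space X ∧ LocallyCompactSpace X ∧ T2Space D ∧ LocallyCompactSpace D ∧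
    T2Space Y ∧ LocallyCompactSpace Y ∧
    IsDevelopable D ∧ IsPerfect g ∧ IsPerfect f ∧
    ∀ (E : Type u) [TopologicalSpace E], IsDevelopable E → ¬ ∃ h : Y → E, IsPerfect h :=
  main

end Pool.Agent.Results.MP_5c431f_gt.PerfectImage
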